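import Mathlib

set_option autoImplicit false

namespace Pool.Agent.H222Z.LIS

open Classical in
/-- The length of a longest weakly increasing subsequence of `s 0, …, s (n - 1)`: the largest
number of elements of a set `I` of indices below `n` such that `s i ≤ s j` whenever `i ≤ j`
are in `I`. -/
noncomputable def lis {α : Type} [Preorder α] (s : ℕ → α) (n : ℕ) : ℕ :=
  ((Finset.range n).powerset.filter fun I : Finset ℕ => MonotoneOn s (I : Set ℕ)).sup Finset.card

end Pool.Agent.H222Z.LIS
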