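import Mathlib

set_option autoImplicit false

namespace Pool.Agent.H222Z.LIS

open MeasureTheory ProbabilityTheory Finset
open scoped ENNReal

section State

variable {E : Type} [MeasurableSpace E]

/-- The state after `t` updates driven by the sequence `x`. -/
def st (T : ℕ → E → ℝ → E) (e₀ : E) (x : ℕ → ℝ) : ℕ → E
  | 0 => e₀
  | t + 1 => T t (st T e₀ x t) (x t)

omit [MeasurableSpace E] in
lemma st_congr (T : ℕ → E → ℝ → E) (e₀ : E) (x y : ℕ → ℝ) (t : ℕ)
    (h : ∀ i < t, x i = y i) : st T e₀ x t = st T e₀ y t := by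
  induction t with
  | zero => rfl
  | succ t ih =>
    simp only [st]
    rw [ih fun i hi => h i (Nat.lt_succ_of_lt hi), h t (Nat.lt_succ_self t)]

lemma measurable_st (T : ℕ → E → ℝ → E) (hT : ∀ t, Measurable fun p : E × ℝ => T t p.1 p.2)
    (e₀ : E) (t : ℕ) : Measurable fun x : ℕ → ℝ => st T e₀ x t := by
  induction t with
  | zero => exact measurable_const
  | succ t ih => exact (hT t).comp (ih.prodMk (measurable_pi_apply t))

variable {Ω : Type*} [MeasurableSpace Ω] {P : Measure Ω} [IsProbabilityMeasure P]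
  {X : ℕ → Ω → ℝ} {μ : Measure ℝ}

lemma indep_st (hm : ∀ i, Measurable (X i)) (hind : iIndepFun X P)
    (T : ℕ → E → ℝ → E) (hT : ∀ t, Measurable fun p : E × ℝ => T t p.1 p.2) (e₀ : E) (t : ℕ) :
    IndepFun (fun ω => st T e₀ (fun i => X i ω) t) (X t) P := by
  classical
  have h := hind.indepFun_finset (Finset.range t) {t} (by simp) hm
  let φ : ((i : (Finset.range t : Finset ℕ)) → ℝ) → E := fun y =>
    st T e₀ (fun i => if h : i ∈ Finset.range t then y ⟨i, h⟩ else 0) t
  let ψ : ((i : ({t} : Finset ℕ)) → ℝ) → ℝ := fun y => y ⟨t, Finset.mem_singleton_self t⟩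
  have hφ : Measurable φ := by
    refine (measurable_st T hT e₀ t).comp (measurable_pi_lambda _ fun i => ?_)
    by_cases hi : i ∈ Finset.range t
    · simp only [hi, dif_pos]
      exact measurable_pi_apply _
    · simp only [hi, dif_neg, not_false_eq_true]
      exact measurable_const
  have hψ : Measurable ψ := measurable_pi_apply _
  have h2 := h.comp hφ hψ
  have e1 : (fun ω => st T e₀ (fun i => X i ω) t) =
      φ ∘ fun a (i : (Finset.range t : Finset ℕ)) => X (↑i) a := by
    funext ω
    simp only [φ, Function.comp]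
    refine st_congr T e₀ _ _ t fun i hi => ?_
    rw [dif_pos (Finset.mem_range.2 hi)]
  rw [e1]
  exact h2

lemma state_bound (hm : ∀ i, Measurable (X i)) (hind : iIndepFun X P)
    (hlaw : ∀ i, P.map (X i) = μ)
    (T : ℕ → E → ℝ → E) (hT : ∀ t, Measurable fun p : E × ℝ => T t p.1 p.2) (e₀ : E)
    (F : E → ℝ≥0∞) (hF : Measurable F) (c : ℝ≥0∞)
    (hstep : ∀ t e, ∫⁻ x, F (T t e x) ∂μ ≤ F e + c) (n : ℕ) :
    ∫⁻ ω, F (st T e₀ (fun i => X i ω) n) ∂P ≤ F e₀ + n * c := by
  induction n with
  | zero => simp [st]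
  | succ n ih =>
    have hX : Measurable fun ω => (fun i => X i ω) := measurable_pi_lambda _ hm
    have hW : Measurable fun ω => st T e₀ (fun i => X i ω) n := (measurable_st T hT e₀ n).comp hX
    have hi := indep_st hm hind T hT e₀ n
    rw [indepFun_iff_map_prod_eq_prod_map_map hW.aemeasurable (hm n).aemeasurable, hlaw n] at hi
    have hμ : IsProbabilityMeasure μ := by
      rw [← hlaw 0]; exact Measure.isProbabilityMeasure_map (hm 0).aemeasurable
    have hFT : Measurable fun p : E × ℝ => F (T n p.1 p.2) := hF.comp (hT n)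
    have h1 : ∫⁻ ω, F (st T e₀ (fun i => X i ω) (n + 1)) ∂P =
        ∫⁻ p, F (T n p.1 p.2) ∂(P.map fun ω => (st T e₀ (fun i => X i ω) n, X n ω)) := by
      rw [lintegral_map hFT (hW.prodMk (hm n))]
      rfl
    rw [h1, hi, lintegral_prod _ hFT.aemeasurable]
    calc _ ≤ ∫⁻ e, (F e + c) ∂(P.map fun ω => st T e₀ (fun i => X i ω) n) :=
          lintegral_mono fun e => hstep n e
      _ = ∫⁻ ω, (F (st T e₀ (fun i => X i ω) n) + c) ∂P :=
          lintegral_map (hF.add_const c) hW
      _ = ∫⁻ ω, F (st T e₀ (fun i => X i ω) n) ∂P + c := by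
          rw [lintegral_add_right _ measurable_const]; simp
      _ ≤ F e₀ + n * c + c := by gcongr
      _ = F e₀ + ((n + 1 : ℕ) : ℝ≥0∞) * c := by push_cast; ring

end State

/-- Partial sums. -/
def S (x : ℕ → ℝ) (t : ℕ) : ℝ := ∑ i ∈ Finset.range t, x i

lemma S_succ (x : ℕ → ℝ) (t : ℕ) : S x (t + 1) = S x t + x t := Finset.sum_range_succ _ _

section Kolmogorov

variable {Ω : Type*} [MeasurableSpace Ω] {P : Measure Ω} [IsProbabilityMeasure P]
  {X : ℕ → Ω → ℝ} {μ : Measure ℝ}

lemma stopped (M : ℝ) (x : ℕ → ℝ) (n : ℕ) (hM : 0 ≤ M) :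
    ((∀ t ≤ n, |S x t| ≤ M) ∧
      st (fun _ e y => if |e| ≤ M then e + y else e) (0 : ℝ) x n = S x n) ∨
    M < |st (fun _ e y => if |e| ≤ M then e + y else e) (0 : ℝ) x n| := by
  induction n with
  | zero =>
    left
    refine ⟨fun t ht => ?_, by simp [st, S]⟩
    obtain rfl : t = 0 := by omega
    simpa [S] using hM
  | succ n ih =>
    rcases ih with ⟨h1, h2⟩ | h
    · have h3 : st (fun _ e y => if |e| ≤ M then e + y else e) (0 : ℝ) x (n + 1) = S x (n + 1) := by
        simp only [st]
        rw [h2, if_pos (h1 n le_rfl), S_succ]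
      by_cases h4 : |S x (n + 1)| ≤ M
      · left
        refine ⟨fun t ht => ?_, h3⟩
        rcases Nat.lt_or_ge t (n + 1) with h5 | h5
        · exact h1 t (by omega)
        · obtain rfl : t = n + 1 := by omega
          exact h4
      · right
        rw [h3]; exact not_le.1 h4
    · right
      simp only [st]
      rw [if_neg (not_le.2 h)]
      exact h

lemma kolmogorov (hm : ∀ i, Measurable (X i)) (hind : iIndepFun X P)
    (hlaw : ∀ i, P.map (X i) = μ) (h2 : MemLp (fun x : ℝ => x) 2 μ) (h0 : ∫ x, x ∂μ = 0)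
    (M : ℝ) (hM : 0 < M) (n : ℕ) :
    P {ω | ¬ ∀ t ≤ n, |S (fun i => X i ω) t| ≤ M} ≤
      ENNReal.ofReal (n * (∫ x, x ^ 2 ∂μ) / M ^ 2) := by
  have hμ : IsProbabilityMeasure μ := by
    rw [← hlaw 0]; exact Measure.isProbabilityMeasure_map (hm 0).aemeasurable
  set T : ℕ → ℝ → ℝ → ℝ := fun _ e y => if |e| ≤ M then e + y else e with hTdef
  have hT : ∀ t, Measurable fun p : ℝ × ℝ => T t p.1 p.2 := by
    intro t
    refine Measurable.ite ?_ (measurable_fst.add measurable_snd) measurable_fst
    exact measurableSet_le (measurable_fst.abs) measurable_const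
  have hsq : Integrable (fun x : ℝ => x ^ 2) μ := h2.integrable_sq
  have hid : Integrable (fun x : ℝ => x) μ := h2.integrable (by norm_num)
  have hs0 : 0 ≤ ∫ x, x ^ 2 ∂μ := integral_nonneg fun x => sq_nonneg x
  have hF : Measurable fun e : ℝ => ENNReal.ofReal (e ^ 2) := by fun_prop
  have key := state_bound hm hind hlaw T hT (0 : ℝ) (fun e => ENNReal.ofReal (e ^ 2)) hF
    (ENNReal.ofReal (∫ x, x ^ 2 ∂μ)) (by
      intro t e
      by_cases he : |e| ≤ M
      · simp only [T, he, if_true]
        have hint : Integrable (fun x : ℝ => (e + x) ^ 2) μ := by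
          have : (fun x : ℝ => (e + x) ^ 2) = fun x => e ^ 2 + (2 * e * x + x ^ 2) := by
            funext x; ring
          rw [this]
          exact (integrable_const _).add ((hid.const_mul _).add hsq)
        rw [← ofReal_integral_eq_lintegral_ofReal hint
          (Filter.Eventually.of_forall fun x => sq_nonneg _),
          ← ENNReal.ofReal_add (sq_nonneg _) hs0]
        refine ENNReal.ofReal_le_ofReal (le_of_eq ?_)
        have : (fun x : ℝ => (e + x) ^ 2) = fun x => e ^ 2 + (2 * e * x + x ^ 2) := by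
          funext x; ring
        have hi2 : Integrable (fun x : ℝ => 2 * e * x + x ^ 2) μ := (hid.const_mul _).add hsq
        rw [this, integral_add (integrable_const _) hi2,
          integral_add (hid.const_mul _) hsq, integral_const_mul, h0]
        simp
      · simp only [T, he, if_false]
        simp) n
  have hX : Measurable fun ω => (fun i => X i ω) := measurable_pi_lambda _ hm
  have hW : Measurable fun ω => st T (0 : ℝ) (fun i => X i ω) n := (measurable_st T hT _ n).comp hX
  have hsub : {ω | ¬ ∀ t ≤ n, |S (fun i => X i ω) t| ≤ M} ⊆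
      {ω | ENNReal.ofReal (M ^ 2) ≤ ENNReal.ofReal ((st T (0 : ℝ) (fun i => X i ω) n) ^ 2)} := by
    intro ω hω
    rcases stopped M (fun i => X i ω) n hM.le with h | h
    · exact absurd h.1 hω
    · refine ENNReal.ofReal_le_ofReal ?_
      rw [← sq_abs (st T _ _ _)]
      exact pow_le_pow_left₀ hM.le h.le 2
  refine (measure_mono hsub).trans ?_
  have hM2 : ENNReal.ofReal (M ^ 2) ≠ 0 := by
    simpa using hM.ne'
  refine (meas_ge_le_lintegral_div (hF.comp hW).aemeasurable hM2 ENNReal.ofReal_ne_top).trans ?_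
  rw [ENNReal.ofReal_div_of_pos (by positivity), ENNReal.ofReal_mul (Nat.cast_nonneg _)]
  refine ENNReal.div_le_div_right ?_ _
  simpa using key

end Kolmogorov

end Pool.Agent.H222Z.LIS
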