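import Mathlib
import Pool.Agent.H222Z.LIS.State

set_option autoImplicit false

namespace Pool.Agent.H222Z.LIS

open MeasureTheory ProbabilityTheory Finset
open scoped ENNReal

/-- The mean of `|y + X|`. -/
noncomputable def Phi (μ : Measure ℝ) (y : ℝ) : ℝ := ∫ x, |y + x| ∂μ

/-- Difference of the distances to two levels. -/
def G (a b z : ℝ) : ℝ := |z - a| - |z - b|

/-- Centred increment. -/
noncomputable def xi (μ : Measure ℝ) (a b s x : ℝ) : ℝ :=
  G a b (s + x) - (Phi μ (s - a) - Phi μ (s - b))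

/-- Upper bound for the conditional variance of the increment. -/
noncomputable def vv (μ : Measure ℝ) (a b s : ℝ) : ℝ := ∫ x, (G a b (s + x) - G a b s) ^ 2 ∂μ

lemma abs_G_le {a b δ : ℝ} (h1 : a ≤ b) (h2 : b ≤ a + δ) (z : ℝ) : |G a b z| ≤ δ := by
  unfold G
  refine (abs_abs_sub_abs_le_abs_sub _ _).trans ?_
  rw [abs_le]; constructor <;> linarith

lemma continuous_G (a b : ℝ) : Continuous (G a b) := by
  unfold G; fun_prop

section

variable {μ : Measure ℝ} [IsProbabilityMeasure μ]

lemma integrable_abs_add (h1 : Integrable (fun x : ℝ => x) μ) (y : ℝ) :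
    Integrable (fun x => |y + x|) μ := ((integrable_const y).add h1).abs

lemma Phi_lip (h1 : Integrable (fun x : ℝ => x) μ) (y z : ℝ) :
    |Phi μ y - Phi μ z| ≤ |y - z| := by
  unfold Phi
  rw [← integral_sub (integrable_abs_add h1 y) (integrable_abs_add h1 z)]
  have h := norm_integral_le_of_norm_le_const (μ := μ)
    (f := fun x => |y + x| - |z + x|) (C := |y - z|) (Filter.Eventually.of_forall fun x => by
      rw [Real.norm_eq_abs]
      refine (abs_abs_sub_abs_le_abs_sub _ _).trans (le_of_eq ?_)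
      congr 1; ring)
  simpa using h

lemma continuous_Phi (h1 : Integrable (fun x : ℝ => x) μ) : Continuous (Phi μ) := by
  have : LipschitzWith 1 (Phi μ) := by
    refine LipschitzWith.of_dist_le_mul fun y z => ?_
    simpa [Real.dist_eq] using Phi_lip h1 y z
  exact this.continuous

lemma abs_le_Phi (h1 : Integrable (fun x : ℝ => x) μ) (h0 : ∫ x, x ∂μ = 0) (y : ℝ) :
    |y| ≤ Phi μ y := by
  have : ∫ x, (y + x) ∂μ = y := by
    rw [integral_add (integrable_const _) h1, h0]; simp
  calc |y| = |∫ x, (y + x) ∂μ| := by rw [this]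
    _ ≤ Phi μ y := abs_integral_le_integral_abs

lemma Phi_ge (h1 : Integrable (fun x : ℝ => x) μ) (y : ℝ) :
    (∫ x, |x| ∂μ) - |y| ≤ Phi μ y := by
  have h := Phi_lip h1 0 y
  have h2 : Phi μ 0 = ∫ x, |x| ∂μ := by simp [Phi]
  rw [h2, zero_sub, abs_neg] at h
  linarith [(abs_le.1 h).2]

lemma Phi_le (h2 : MemLp (fun x : ℝ => x) 2 μ) (h0 : ∫ x, x ∂μ = 0) {M y : ℝ} (hM : 0 < M)
    (hy : M ≤ y) : Phi μ y ≤ y + 2 * (∫ x, x ^ 2 ∂μ) / M := by
  have hsq : Integrable (fun x : ℝ => x ^ 2) μ := h2.integrable_sq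
  have h1 : Integrable (fun x : ℝ => x) μ := h2.integrable (by norm_num)
  have hi1 : Integrable (fun x : ℝ => x + 2 / M * x ^ 2) μ := h1.add (hsq.const_mul _)
  have hi : Integrable (fun x : ℝ => y + (x + 2 / M * x ^ 2)) μ := (integrable_const _).add hi1
  have : Phi μ y ≤ ∫ x, (y + (x + 2 / M * x ^ 2)) ∂μ := by
    refine integral_mono (integrable_abs_add h1 y) hi fun x => ?_
    simp only
    have hnn : 0 ≤ 2 / M * x ^ 2 := by positivity
    rcases le_or_gt 0 (y + x) with h | h
    · rw [abs_of_nonneg h]; linarith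
    · rw [abs_of_neg h]
      have h3 : M ≤ -x := by linarith
      have h4 : -2 * x ≤ 2 / M * x ^ 2 := by
        rw [div_mul_eq_mul_div, le_div_iff₀ hM]
        nlinarith
      linarith
  rw [integral_add (integrable_const _) hi1, integral_add h1 (hsq.const_mul _), h0,
    integral_const_mul] at this
  simp only [integral_const, probReal_univ, smul_eq_mul, one_mul, zero_add] at this
  refine this.trans (le_of_eq ?_)
  ring

lemma integral_G (h1 : Integrable (fun x : ℝ => x) μ) (a b s : ℝ) :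
    ∫ x, G a b (s + x) ∂μ = Phi μ (s - a) - Phi μ (s - b) := by
  unfold Phi G
  rw [← integral_sub (integrable_abs_add h1 _) (integrable_abs_add h1 _)]
  congr 1
  funext x
  congr 2 <;> ring

lemma integrable_of_bdd {f : ℝ → ℝ} (hf : Continuous f) (C : ℝ) (hC : ∀ x, |f x| ≤ C) :
    Integrable f μ :=
  Integrable.of_bound hf.aestronglyMeasurable C (Filter.Eventually.of_forall hC)

lemma measurable_vv (a b : ℝ) : Measurable (vv μ a b) := by
  have hc : Continuous fun p : ℝ × ℝ => (G a b (p.1 + p.2) - G a b p.1) ^ 2 := by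
    have := continuous_G a b
    fun_prop
  exact (hc.stronglyMeasurable.integral_prod_right' (ν := μ)).measurable

lemma exp_step (h1 : Integrable (fun x : ℝ => x) μ) {a b δ lam : ℝ} (hab : a ≤ b)
    (hb : b ≤ a + δ) (hl : 0 ≤ lam) (hld : 2 * lam * δ ≤ 1) (s A : ℝ) :
    ∫⁻ x, ENNReal.ofReal (Real.exp (A + (lam * xi μ a b s x - lam ^ 2 * vv μ a b s))) ∂μ ≤
      ENNReal.ofReal (Real.exp A) := by
  set m := Phi μ (s - a) - Phi μ (s - b) with hm
  have hGc : Continuous fun x => G a b (s + x) := (continuous_G a b).comp (by fun_prop)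
  have hGi : Integrable (fun x => G a b (s + x)) μ :=
    integrable_of_bdd hGc δ fun x => abs_G_le hab hb _
  have hmI : ∫ x, G a b (s + x) ∂μ = m := integral_G h1 a b s
  have hmb : |m| ≤ δ := by
    rw [← hmI]
    have h := norm_integral_le_of_norm_le_const (μ := μ) (f := fun x => G a b (s + x)) (C := δ)
      (Filter.Eventually.of_forall fun x => abs_G_le hab hb _)
    simpa using h
  have hxb : ∀ x, |xi μ a b s x| ≤ 2 * δ := by
    intro x
    unfold xi
    rw [← hm]
    have := abs_G_le hab hb (s + x)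
    rw [abs_le] at *
    constructor <;> linarith [this.1, this.2, hmb.1, hmb.2]
  have hxc : Continuous fun x => xi μ a b s x := by
    unfold xi; exact hGc.sub continuous_const
  have hxi : Integrable (fun x => xi μ a b s x) μ := integrable_of_bdd hxc _ hxb
  have hx0 : ∫ x, xi μ a b s x ∂μ = 0 := by
    unfold xi
    rw [integral_sub hGi (integrable_const _), hmI]
    simp [hm]
  have hx2i : Integrable (fun x => (xi μ a b s x) ^ 2) μ := by
    refine integrable_of_bdd (hxc.pow 2) ((2 * δ) ^ 2) fun x => ?_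
    rw [abs_pow]
    exact pow_le_pow_left₀ (abs_nonneg _) (hxb x) 2
  have hvar : ∫ x, (xi μ a b s x) ^ 2 ∂μ ≤ vv μ a b s := by
    have e : ∀ x, (G a b (s + x) - G a b s) ^ 2 =
        (xi μ a b s x) ^ 2 + (2 * (m - G a b s) * xi μ a b s x + (m - G a b s) ^ 2) := by
      intro x; unfold xi; rw [← hm]; ring
    unfold vv
    simp only [e]
    have hi : Integrable (fun x => 2 * (m - G a b s) * xi μ a b s x + (m - G a b s) ^ 2) μ :=
      (hxi.const_mul _).add (integrable_const _)
    rw [integral_add hx2i hi, integral_add (hxi.const_mul _) (integrable_const _),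
      integral_const_mul, hx0]
    simp only [mul_zero, integral_const, probReal_univ, smul_eq_mul, one_mul, zero_add]
    nlinarith [sq_nonneg (m - G a b s)]
  have hlx : ∀ x, |lam * xi μ a b s x| ≤ 1 := by
    intro x
    rw [abs_mul, abs_of_nonneg hl]
    nlinarith [hxb x, abs_nonneg (xi μ a b s x)]
  have hec : Continuous fun x => Real.exp (lam * xi μ a b s x) := by fun_prop
  have hei : Integrable (fun x => Real.exp (lam * xi μ a b s x)) μ := by
    refine integrable_of_bdd hec (Real.exp 1) fun x => ?_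
    rw [abs_of_pos (Real.exp_pos _)]
    exact Real.exp_le_exp.2 (abs_le.1 (hlx x)).2
  have hexp : ∫ x, Real.exp (lam * xi μ a b s x) ∂μ ≤ Real.exp (lam ^ 2 * vv μ a b s) := by
    have hi1 : Integrable (fun x => lam * xi μ a b s x + lam ^ 2 * (xi μ a b s x) ^ 2) μ :=
      (hxi.const_mul _).add (hx2i.const_mul _)
    have hi : Integrable (fun x => 1 + (lam * xi μ a b s x + lam ^ 2 * (xi μ a b s x) ^ 2)) μ :=
      (integrable_const _).add hi1
    calc _ ≤ ∫ x, (1 + (lam * xi μ a b s x + lam ^ 2 * (xi μ a b s x) ^ 2)) ∂μ := by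
          refine integral_mono hei hi fun x => ?_
          have := Real.abs_exp_sub_one_sub_id_le (hlx x)
          have h3 := (abs_le.1 this).2
          simp only
          nlinarith
      _ = 1 + lam ^ 2 * ∫ x, (xi μ a b s x) ^ 2 ∂μ := by
          rw [integral_add (integrable_const _) hi1,
            integral_add (hxi.const_mul _) (hx2i.const_mul _), integral_const_mul,
            integral_const_mul, hx0]
          simp
      _ ≤ lam ^ 2 * vv μ a b s + 1 := by nlinarith [sq_nonneg lam]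
      _ ≤ _ := Real.add_one_le_exp _
  have e : ∀ x, Real.exp (A + (lam * xi μ a b s x - lam ^ 2 * vv μ a b s)) =
      Real.exp (A - lam ^ 2 * vv μ a b s) * Real.exp (lam * xi μ a b s x) := by
    intro x; rw [← Real.exp_add]; congr 1; ring
  simp only [e]
  rw [← ofReal_integral_eq_lintegral_ofReal (hei.const_mul _)
    (Filter.Eventually.of_forall fun x => by positivity), integral_const_mul]
  refine ENNReal.ofReal_le_ofReal ?_
  calc _ ≤ Real.exp (A - lam ^ 2 * vv μ a b s) * Real.exp (lam ^ 2 * vv μ a b s) := by gcongr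
    _ = Real.exp A := by rw [← Real.exp_add]; congr 1; ring

end

lemma st_pair (f : ℕ → ℝ → ℝ → ℝ) (x : ℕ → ℝ) (n : ℕ) :
    st (fun t (e : ℝ × ℝ) y => (e.1 + y, e.2 + f t e.1 y)) (0, 0) x n =
      (S x n, ∑ t ∈ Finset.range n, f t (S x t) (x t)) := by
  induction n with
  | zero => simp [st, S]
  | succ n ih =>
    simp only [st]
    rw [ih, S_succ, Finset.sum_range_succ]

lemma expo_bound {Ω : Type*} [MeasurableSpace Ω] {P : Measure Ω} [IsProbabilityMeasure P]
    {X : ℕ → Ω → ℝ} {μ : Measure ℝ} (hm : ∀ i, Measurable (X i)) (hind : iIndepFun X P)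
    (hlaw : ∀ i, P.map (X i) = μ) (h1 : Integrable (fun x : ℝ => x) μ)
    (a b : ℕ → ℝ) {δ lam : ℝ} (hab : ∀ t, a t ≤ b t) (hb : ∀ t, b t ≤ a t + δ)
    (hl : 0 ≤ lam) (hld : 2 * lam * δ ≤ 1) (n : ℕ) (θ : ℝ) :
    P {ω | ¬ ∑ t ∈ Finset.range n, (lam * xi μ (a t) (b t) (S (fun i => X i ω) t) (X t ω) -
      lam ^ 2 * vv μ (a t) (b t) (S (fun i => X i ω) t)) ≤ θ} ≤
      ENNReal.ofReal (Real.exp (-θ)) := by
  have hμ : IsProbabilityMeasure μ := by
    rw [← hlaw 0]; exact Measure.isProbabilityMeasure_map (hm 0).aemeasurable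
  let f : ℕ → ℝ → ℝ → ℝ := fun t s y =>
    lam * xi μ (a t) (b t) s y - lam ^ 2 * vv μ (a t) (b t) s
  let T : ℕ → ℝ × ℝ → ℝ → ℝ × ℝ := fun t e y => (e.1 + y, e.2 + f t e.1 y)
  have hT : ∀ t, Measurable fun p : (ℝ × ℝ) × ℝ => T t p.1 p.2 := by
    intro t
    have hP := (continuous_Phi h1).measurable
    have hG := (continuous_G (a t) (b t)).measurable
    have hv := measurable_vv (μ := μ) (a t) (b t)
    simp only [T, f, xi]
    fun_prop
  have hF : Measurable fun e : ℝ × ℝ => ENNReal.ofReal (Real.exp e.2) := by fun_prop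
  have key := state_bound hm hind hlaw T hT ((0 : ℝ), (0 : ℝ))
    (fun e => ENNReal.ofReal (Real.exp e.2)) hF 0 (by
      intro t e
      simpa [T, f] using exp_step h1 (hab t) (hb t) hl hld e.1 e.2) n
  have hX : Measurable fun ω => (fun i => X i ω) := measurable_pi_lambda _ hm
  have hW : Measurable fun ω => st T ((0 : ℝ), (0 : ℝ)) (fun i => X i ω) n :=
    (measurable_st T hT _ n).comp hX
  have hsub : {ω | ¬ ∑ t ∈ Finset.range n, (lam * xi μ (a t) (b t) (S (fun i => X i ω) t) (X t ω) -
      lam ^ 2 * vv μ (a t) (b t) (S (fun i => X i ω) t)) ≤ θ} ⊆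
      {ω | ENNReal.ofReal (Real.exp θ) ≤
        ENNReal.ofReal (Real.exp (st T ((0 : ℝ), (0 : ℝ)) (fun i => X i ω) n).2)} := by
    intro ω hω
    refine ENNReal.ofReal_le_ofReal (Real.exp_le_exp.2 ?_)
    rw [st_pair f]
    exact (not_le.1 hω).le
  refine (measure_mono hsub).trans ?_
  have h0 : ENNReal.ofReal (Real.exp θ) ≠ 0 := by simpa using Real.exp_pos θ
  refine (meas_ge_le_lintegral_div (hF.comp hW).aemeasurable h0 ENNReal.ofReal_ne_top).trans ?_
  rw [Real.exp_neg, ENNReal.ofReal_inv_of_pos (Real.exp_pos θ), ← one_div]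
  refine ENNReal.div_le_div_right ?_ _
  simpa using key

end Pool.Agent.H222Z.LIS
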