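import Mathlib
import Pool.Agent.H222Z.LIS.Defs
import Pool.Agent.H222Z.LIS.Expo

set_option autoImplicit false

namespace Pool.Agent.H222Z.LIS

open MeasureTheory ProbabilityTheory Finset

lemma card_le_lis {α : Type} [Preorder α] (s : ℕ → α) (n : ℕ) (I : Finset ℕ)
    (hI : I ⊆ Finset.range n) (hm : MonotoneOn s (I : Set ℕ)) : I.card ≤ lis s n := by
  classical
  unfold lis
  refine Finset.le_sup (f := Finset.card) ?_
  simp only [Finset.mem_filter, Finset.mem_powerset]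
  exact ⟨hI, hm⟩

lemma exists_lis {α : Type} [Preorder α] (s : ℕ → α) (n : ℕ) :
    ∃ I : Finset ℕ, I ⊆ Finset.range n ∧ MonotoneOn s (I : Set ℕ) ∧ I.card = lis s n := by
  classical
  unfold lis
  obtain ⟨I, hI, h⟩ := Finset.exists_mem_eq_sup
    ((Finset.range n).powerset.filter fun I : Finset ℕ => MonotoneOn s (I : Set ℕ))
    ⟨∅, by simp [MonotoneOn]⟩ Finset.card
  simp only [Finset.mem_filter, Finset.mem_powerset] at hI
  refine ⟨I, hI.1, hI.2, ?_⟩
  convert h.symm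

lemma lis_le_of_monotone {α β : Type} [Preorder α] [Preorder β] (s : ℕ → α) (f : α → β)
    (hf : Monotone f) (n : ℕ) : lis s n ≤ lis (fun t => f (s t)) n := by
  obtain ⟨I, h1, h2, h3⟩ := exists_lis s n
  rw [← h3]
  exact card_le_lis _ n I h1 fun a ha b hb hab => hf (h2 ha hb hab)

/-- Time spent in a band around a monotone function. -/
lemma band_count (u γ : ℕ → ℤ) (hγ : Monotone γ) (n : ℕ) (J : Finset ℤ) :
    ((Finset.range n).filter fun t => u t - γ t ∈ J).card ≤ J.card * lis u n := by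
  classical
  have h : ((Finset.range n).filter fun t => u t - γ t ∈ J) ⊆
      J.biUnion fun j => (Finset.range n).filter fun t => u t - γ t = j := by
    intro t ht
    simp only [Finset.mem_filter, Finset.mem_biUnion] at ht ⊢
    exact ⟨_, ht.2, ht.1, rfl⟩
  refine (Finset.card_le_card h).trans (Finset.card_biUnion_le.trans ?_)
  rw [← smul_eq_mul]
  refine Finset.sum_le_card_nsmul _ _ _ fun j _ => ?_
  refine card_le_lis u n _ (Finset.filter_subset _ _) ?_
  intro a ha b hb hab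
  simp only [Finset.coe_filter, Set.mem_ofPred_eq] at ha hb
  have := hγ hab
  linarith [ha.2, hb.2]

lemma G_lip (a b z w : ℝ) : |G a b z - G a b w| ≤ 2 * |z - w| := by
  unfold G
  have h1 : |(|z - a| - |w - a|)| ≤ |z - w| := by
    refine (abs_abs_sub_abs_le_abs_sub _ _).trans (le_of_eq ?_); congr 1; ring
  have h2 : |(|z - b| - |w - b|)| ≤ |z - w| := by
    refine (abs_abs_sub_abs_le_abs_sub _ _).trans (le_of_eq ?_); congr 1; ring
  rw [abs_le] at *
  constructor <;> linarith [h1.1, h1.2, h2.1, h2.2]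

lemma G_low {a b z : ℝ} (hab : a ≤ b) (hz : z ≤ a) : G a b z = a - b := by
  unfold G
  rw [abs_of_nonpos (by linarith), abs_of_nonpos (by linarith)]; ring

lemma G_high {a b z : ℝ} (hab : a ≤ b) (hz : b ≤ z) : G a b z = b - a := by
  unfold G
  rw [abs_of_nonneg (by linarith), abs_of_nonneg (by linarith)]; ring

/-- Pointwise bound for the sum of the squared increments. -/
lemma sq_sum_le (s : ℕ → ℝ) (c ρ w : ℝ) (hρ : 0 < ρ) (k : ℕ) (hk : 1 ≤ k) (hw : w = k)
    (γ : ℕ → ℤ) (hγ : Monotone γ) (b : ℕ → ℝ) (hab : ∀ t, c + ρ * γ t ≤ b t)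
    (hb : ∀ t, b t ≤ c + ρ * γ t + ρ * w) (n : ℕ) (x : ℝ) :
    ∑ t ∈ Finset.range n, (G (c + ρ * γ t) (b t) (s t + x) - G (c + ρ * γ t) (b t) (s t)) ^ 2 ≤
      24 * w * (lis (fun t => ⌊(s t - c) / ρ⌋) n : ℝ) * x ^ 2 := by
  classical
  set L : ℕ := lis (fun t => ⌊(s t - c) / ρ⌋) n with hL
  set R : ℕ := ⌈|x| / ρ⌉₊ with hR
  set J : Finset ℤ := Finset.Icc (-(R : ℤ)) (k + R) with hJ
  set m : ℝ := min (ρ * w) |x| with hm
  have hw1 : 1 ≤ w := by rw [hw]; exact_mod_cast hk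
  have hm0 : 0 ≤ m := le_min (by positivity) (abs_nonneg _)
  have hm1 : m ≤ ρ * w := min_le_left _ _
  have hm2 : m ≤ |x| := min_le_right _ _
  have hR1 : |x| / ρ ≤ R := Nat.le_ceil _
  have hR2 : (R : ℝ) ≤ |x| / ρ + 1 := (Nat.ceil_lt_add_one (by positivity)).le
  have hterm : ∀ t, (G (c + ρ * γ t) (b t) (s t + x) - G (c + ρ * γ t) (b t) (s t)) ^ 2 ≤
      if ⌊(s t - c) / ρ⌋ - γ t ∈ J then 4 * m ^ 2 else 0 := by
    intro t
    split_ifs with h
    · have h1 := G_lip (c + ρ * γ t) (b t) (s t + x) (s t)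
      rw [add_sub_cancel_left] at h1
      have h2 := abs_G_le (hab t) (hb t) (s t + x)
      have h3 := abs_G_le (hab t) (hb t) (s t)
      have h4 : |G (c + ρ * γ t) (b t) (s t + x) - G (c + ρ * γ t) (b t) (s t)| ≤ 2 * m := by
        rcases le_total (ρ * w) |x| with h5 | h5
        · rw [hm, min_eq_left h5]
          exact (abs_sub _ _).trans (by linarith)
        · rw [hm, min_eq_right h5]; exact h1
      calc _ = |G (c + ρ * γ t) (b t) (s t + x) - G (c + ρ * γ t) (b t) (s t)| ^ 2 :=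
            (sq_abs _).symm
        _ ≤ (2 * m) ^ 2 := pow_le_pow_left₀ (abs_nonneg _) h4 2
        _ = 4 * m ^ 2 := by ring
    · rw [hJ, Finset.mem_Icc, not_and_or] at h
      have hx1 := le_abs_self x
      have hx2 := neg_abs_le x
      have hx3 : |x| ≤ ρ * R := by rwa [div_le_iff₀ hρ, mul_comm] at hR1
      rcases h with h | h
      · have h1 : ⌊(s t - c) / ρ⌋ < γ t - R := by omega
        rw [Int.floor_lt] at h1
        push_cast at h1
        rw [div_lt_iff₀ hρ] at h1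
        rw [G_low (hab t) (by nlinarith), G_low (hab t) (by nlinarith [abs_nonneg x])]
        simp
      · have h1 : γ t + k + R ≤ ⌊(s t - c) / ρ⌋ := by omega
        rw [Int.le_floor] at h1
        push_cast at h1
        rw [le_div_iff₀ hρ, ← hw] at h1
        have h2 := hb t
        rw [G_high (hab t) (by nlinarith), G_high (hab t) (by nlinarith [abs_nonneg x])]
        simp
  refine (Finset.sum_le_sum fun t _ => hterm t).trans ?_
  rw [← Finset.sum_filter, Finset.sum_const, nsmul_eq_mul]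
  have hc := band_count (fun t => ⌊(s t - c) / ρ⌋) γ hγ n J
  have hJc : (J.card : ℝ) = w + 2 * R + 1 := by
    rw [hJ, Int.card_Icc, hw]
    have : (k : ℤ) + R + 1 - -(R : ℤ) = ((k + 2 * R + 1 : ℕ) : ℤ) := by push_cast; ring
    rw [this, Int.toNat_natCast]
    push_cast; ring
  have hc' : (((Finset.range n).filter fun t => ⌊(s t - c) / ρ⌋ - γ t ∈ J).card : ℝ) ≤
      (w + 2 * R + 1) * L := by
    rw [← hJc]; exact_mod_cast hc
  have hL0 : (0 : ℝ) ≤ L := Nat.cast_nonneg _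
  have h5 : m ^ 2 ≤ x ^ 2 := by
    rw [← sq_abs x]; exact pow_le_pow_left₀ hm0 hm2 2
  have h6 : m ^ 2 * (|x| / ρ) ≤ w * x ^ 2 := by
    have h7 : m ^ 2 ≤ (ρ * w) * |x| := by
      rw [sq]; exact mul_le_mul hm1 hm2 hm0 (by positivity)
    calc m ^ 2 * (|x| / ρ) ≤ (ρ * w) * |x| * (|x| / ρ) := by gcongr
      _ = w * |x| ^ 2 := by field_simp
      _ = w * x ^ 2 := by rw [sq_abs]
  have h8 : (w + 2 * R + 1) * m ^ 2 ≤ 6 * w * x ^ 2 := by
    have h9 : (w + 2 * R + 1) * m ^ 2 ≤ (w + 3 + 2 * (|x| / ρ)) * m ^ 2 :=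
      mul_le_mul_of_nonneg_right (by linarith) (sq_nonneg _)
    have h10 : (w + 3) * m ^ 2 ≤ (4 * w) * x ^ 2 :=
      mul_le_mul (by linarith) h5 (sq_nonneg _) (by linarith)
    nlinarith
  calc _ ≤ (w + 2 * R + 1) * L * (4 * m ^ 2) := by gcongr
    _ = 4 * L * ((w + 2 * R + 1) * m ^ 2) := by ring
    _ ≤ 4 * L * (6 * w * x ^ 2) := by gcongr
    _ = _ := by ring

lemma vv_sum_le {μ : Measure ℝ} [IsProbabilityMeasure μ] (h2 : MemLp (fun x : ℝ => x) 2 μ)
    (s : ℕ → ℝ) (c ρ w : ℝ) (hρ : 0 < ρ) (k : ℕ) (hk : 1 ≤ k) (hw : w = k)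
    (γ : ℕ → ℤ) (hγ : Monotone γ) (b : ℕ → ℝ) (hab : ∀ t, c + ρ * γ t ≤ b t)
    (hb : ∀ t, b t ≤ c + ρ * γ t + ρ * w) (n : ℕ) :
    ∑ t ∈ Finset.range n, vv μ (c + ρ * γ t) (b t) (s t) ≤
      24 * w * (lis (fun t => ⌊(s t - c) / ρ⌋) n : ℝ) * ∫ x, x ^ 2 ∂μ := by
  have hsq : Integrable (fun x : ℝ => x ^ 2) μ := h2.integrable_sq
  have hi : ∀ t, Integrable (fun x =>
      (G (c + ρ * γ t) (b t) (s t + x) - G (c + ρ * γ t) (b t) (s t)) ^ 2) μ := by
    intro t
    have hc := continuous_G (c + ρ * γ t) (b t)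
    refine integrable_of_bdd (by fun_prop) ((2 * (ρ * w)) ^ 2) fun x => ?_
    rw [abs_pow]
    refine pow_le_pow_left₀ (abs_nonneg _) ?_ 2
    have h3 := abs_G_le (hab t) (hb t) (s t + x)
    have h4 := abs_G_le (hab t) (hb t) (s t)
    exact (abs_sub _ _).trans (by linarith)
  unfold vv
  rw [← integral_finsetSum _ fun t _ => hi t, ← integral_const_mul]
  exact integral_mono (integrable_finsetSum _ fun t _ => hi t) (hsq.const_mul _)
    fun x => sq_sum_le s c ρ w hρ k hk hw γ hγ b hab hb n x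

/-- The monotone step function with prescribed jump times. -/
def beta {B n : ℕ} (τ : Fin B → Fin (n + 1)) (t : ℕ) : ℕ :=
  (Finset.univ.filter fun j => (τ j : ℕ) ≤ t).card

lemma exists_tau (B n : ℕ) (β : ℕ → ℕ) (hβ : Monotone β) (hB : ∀ t, β t ≤ B) :
    ∃ τ : Fin B → Fin (n + 1), ∀ t < n, beta τ t = β t := by
  classical
  have hex : ∀ j : Fin B, ∃ t, (j : ℕ) < β t ∨ t = n := fun j => ⟨n, Or.inr rfl⟩
  refine ⟨fun j => ⟨Nat.find (hex j), Nat.lt_succ_of_le (Nat.find_min' _ (Or.inr rfl))⟩,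
    fun t ht => ?_⟩
  unfold beta
  have : (Finset.univ.filter fun j : Fin B => Nat.find (hex j) ≤ t) =
      Finset.univ.filter fun j : Fin B => (j : ℕ) < β t := by
    refine Finset.filter_congr fun j _ => ?_
    constructor
    · intro h
      rcases Nat.find_spec (hex j) with h1 | h1
      · exact lt_of_lt_of_le h1 (hβ h)
      · omega
    · intro h
      exact Nat.find_min' _ (Or.inl h)
  simp only
  rw [this, Fin.card_filter_val_lt, min_eq_right (hB t)]

lemma exists_gamma (u : ℕ → ℤ) (I : Finset ℕ) (hm : MonotoneOn u (I : Set ℕ)) (B : ℕ)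
    (hB : 0 < B) (h0 : ∀ t ∈ I, 0 ≤ u t) (h1 : ∀ t ∈ I, u t < B) :
    ∃ γ : ℕ → ℕ, Monotone γ ∧ (∀ t, γ t < B) ∧ ∀ t ∈ I, (γ t : ℤ) = u t := by
  classical
  refine ⟨fun t => (I.filter fun s => s ≤ t).sup fun s => (u s).toNat, ?_, ?_, ?_⟩
  · intro a b hab
    refine Finset.sup_mono fun s hs => ?_
    simp only [Finset.mem_filter] at hs ⊢
    exact ⟨hs.1, hs.2.trans hab⟩
  · intro t
    rw [Finset.sup_lt_iff hB]
    intro s hs
    have := h1 s (Finset.mem_filter.1 hs).1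
    have := h0 s (Finset.mem_filter.1 hs).1
    omega
  · intro t ht
    have : ((I.filter fun s => s ≤ t).sup fun s => (u s).toNat) = (u t).toNat := by
      refine le_antisymm (Finset.sup_le fun s hs => ?_)
        (Finset.le_sup (f := fun s => (u s).toNat) (Finset.mem_filter.2 ⟨ht, le_rfl⟩))
      have hs' := Finset.mem_filter.1 hs
      exact Int.toNat_le_toNat (hm hs'.1 ht hs'.2)
    simp only
    rw [this, Int.toNat_of_nonneg (h0 t ht)]

/-- Discrete Tanaka inequality. -/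
lemma tanaka (s h : ℕ → ℝ) (hh : Monotone h) (n : ℕ) :
    ∑ t ∈ Finset.range n, (|s (t + 1) - h t| - |s t - h t|) ≤ |s n - h n| + (h n - h 0) := by
  have : ∑ t ∈ Finset.range n, (|s (t + 1) - h t| - |s t - h t|) ≤
      |s n - h n| - |s 0 - h 0| + (h n - h 0) := by
    induction n with
    | zero => simp
    | succ n ih =>
      rw [Finset.sum_range_succ]
      have h1 : h n ≤ h (n + 1) := hh (Nat.le_succ n)
      have h2 : |s (n + 1) - h n| ≤ |s (n + 1) - h (n + 1)| + (h (n + 1) - h n) := by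
        rw [abs_le]
        constructor <;> linarith [le_abs_self (s (n + 1) - h (n + 1)),
          neg_abs_le (s (n + 1) - h (n + 1))]
      linarith
  linarith [abs_nonneg (s 0 - h 0)]

end Pool.Agent.H222Z.LIS
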