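import Mathlib
import Pool.Agent.H222Z.LIS.Det

set_option autoImplicit false

namespace Pool.Agent.H222Z.LIS

open MeasureTheory ProbabilityTheory Finset
open scoped ENNReal

/-- Lattice level. -/
def lev (c ρ : ℝ) (k : ℕ) : ℝ := c + ρ * k

lemma lev_mono (c : ℝ) {ρ : ℝ} (hρ : 0 < ρ) {k l : ℕ} (h : k ≤ l) : lev c ρ k ≤ lev c ρ l := by
  unfold lev
  have : (k : ℝ) ≤ l := by exact_mod_cast h
  nlinarith

lemma lev_link1 (c : ℝ) {ρ : ℝ} (hρ : 0 < ρ) (l q : ℕ) :
    lev c ρ (2 ^ (l + 1) * (q / 2)) ≤ lev c ρ (2 ^ l * q) := by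
  refine lev_mono c hρ ?_
  rw [pow_succ, mul_assoc]
  exact Nat.mul_le_mul_left _ (by omega)

lemma lev_link2 (c : ℝ) {ρ : ℝ} (hρ : 0 < ρ) (l q : ℕ) :
    lev c ρ (2 ^ l * q) ≤ lev c ρ (2 ^ (l + 1) * (q / 2)) + ρ * 2 ^ l := by
  have h : 2 ^ l * q ≤ 2 ^ (l + 1) * (q / 2) + 2 ^ l := by
    rw [pow_succ, mul_assoc, ← Nat.mul_succ]
    exact Nat.mul_le_mul_left _ (by omega)
  refine (lev_mono c hρ h).trans (le_of_eq ?_)
  unfold lev
  push_cast
  ring

/-- The good event for one link of the chain. -/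
def Link (μ : Measure ℝ) (c ρ κ lg : ℝ) (n K l : ℕ) (τ : Fin (2 ^ (K - l)) → Fin (n + 1))
    (x : ℕ → ℝ) : Prop :=
  ∑ t ∈ Finset.range n, (1 / (κ * (ρ * 2 ^ l)) *
      xi μ (lev c ρ (2 ^ (l + 1) * (beta τ t / 2))) (lev c ρ (2 ^ l * beta τ t)) (S x t) (x t) -
    (1 / (κ * (ρ * 2 ^ l))) ^ 2 *
      vv μ (lev c ρ (2 ^ (l + 1) * (beta τ t / 2))) (lev c ρ (2 ^ l * beta τ t)) (S x t)) ≤
    2 ^ (K - l) * lg

lemma det_bound {μ : Measure ℝ} [IsProbabilityMeasure μ] (h2 : MemLp (fun x : ℝ => x) 2 μ)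
    (h0 : ∫ x, x ∂μ = 0) (ρ : ℝ) (hρ : 0 < ρ) (hρm : 4 * ρ ≤ ∫ x, |x| ∂μ)
    (x : ℕ → ℝ) (n K : ℕ) (M κ lg : ℝ) (hM : 0 < M) (hK : 3 * M < ρ * 2 ^ K) (hκ0 : 0 < κ)
    (hκ : 24 * (∫ x, x ^ 2 ∂μ) * K ≤ κ * ρ ^ 2)
    (hS : ∀ t ≤ n, |S x t| ≤ M)
    (hlink : ∀ l < K, ∀ τ : Fin (2 ^ (K - l)) → Fin (n + 1), Link μ (-(2 * M)) ρ κ lg n K l τ x) :
    ρ * lis (S x) n ≤ 4 * M + 2 * (ρ * 2 ^ K) + 2 * n * (∫ x, x ^ 2 ∂μ) / M +
      K * (κ * (ρ * 2 ^ K) * lg) := by
  have h1 : Integrable (fun x : ℝ => x) μ := h2.integrable (by norm_num)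
  set σ2 := ∫ x, x ^ 2 ∂μ with hσ2
  have hσ0 : 0 ≤ σ2 := integral_nonneg fun x => sq_nonneg x
  set c : ℝ := -(2 * M) with hc
  set u : ℕ → ℤ := fun t => ⌊(S x t - c) / ρ⌋ with hu
  set L : ℕ := lis u n with hL
  have hLL : lis (S x) n ≤ L := by
    refine lis_le_of_monotone (S x) (fun z => ⌊(z - c) / ρ⌋) ?_ n
    intro a b hab
    exact Int.floor_le_floor (by gcongr)
  obtain ⟨I, hI, hIm, hIc⟩ := exists_lis u n
  have hIn : ∀ t ∈ I, t < n := fun t ht => Finset.mem_range.1 (hI ht)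
  obtain ⟨γ, hγm, hγB, hγI⟩ := exists_gamma u I hIm (2 ^ K) (by positivity)
    (fun t ht => by
      have := abs_le.1 (hS t (hIn t ht).le)
      exact Int.floor_nonneg.2 (div_nonneg (by linarith [this.1]) hρ.le))
    (fun t ht => by
      have := abs_le.1 (hS t (hIn t ht).le)
      rw [hu]
      simp only
      rw [Int.floor_lt, div_lt_iff₀ hρ]
      push_cast
      linarith [this.2])
  let h : ℕ → ℕ → ℝ := fun l t => lev c ρ (2 ^ l * (γ t / 2 ^ l))
  let D : ℕ → ℕ → ℝ := fun l t => |S x (t + 1) - h l t| - Phi μ (S x t - h l t)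
  have hh1 : ∀ l t, h (l + 1) t = lev c ρ (2 ^ (l + 1) * (γ t / 2 ^ l / 2)) := by
    intro l t
    simp only [h]
    rw [Nat.div_div_eq_div_mul, ← pow_succ]
  -- one link
  have hone : ∀ l < K, ∑ t ∈ Finset.range n, (D (l + 1) t - D l t) ≤
      24 * L * σ2 / (κ * ρ) + κ * (ρ * 2 ^ K) * lg := by
    intro l hl
    obtain ⟨τ, hτ⟩ := exists_tau (2 ^ (K - l)) n (fun t => γ t / 2 ^ l)
      (fun a b hab => Nat.div_le_div_right (hγm hab)) (fun t => by
        refine (Nat.div_le_iff_le_mul_add_pred (by positivity)).2 ?_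
        have := hγB t
        have e : 2 ^ l * 2 ^ (K - l) = 2 ^ K := by rw [← pow_add]; congr 1; omega
        omega)
    have hlk := hlink l hl τ
    unfold Link at hlk
    set lam : ℝ := 1 / (κ * (ρ * 2 ^ l)) with hlam
    have hlam0 : 0 < lam := by positivity
    have e1 : ∑ t ∈ Finset.range n, (lam *
        xi μ (lev c ρ (2 ^ (l + 1) * (beta τ t / 2))) (lev c ρ (2 ^ l * beta τ t)) (S x t) (x t) -
        lam ^ 2 *
        vv μ (lev c ρ (2 ^ (l + 1) * (beta τ t / 2))) (lev c ρ (2 ^ l * beta τ t)) (S x t)) =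
        lam * ∑ t ∈ Finset.range n, (D (l + 1) t - D l t) -
        lam ^ 2 * ∑ t ∈ Finset.range n, vv μ (h (l + 1) t) (h l t) (S x t) := by
      rw [Finset.mul_sum, Finset.mul_sum, ← Finset.sum_sub_distrib]
      refine Finset.sum_congr rfl fun t ht => ?_
      rw [hτ t (Finset.mem_range.1 ht), ← hh1]
      simp only [D, xi, G, S_succ, h]
      ring
    rw [e1] at hlk
    have hv := vv_sum_le h2 (S x) c ρ (2 ^ l) hρ (2 ^ l) Nat.one_le_two_pow (by push_cast; rfl)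
      (fun t => ((2 ^ (l + 1) * (γ t / 2 ^ l / 2) : ℕ) : ℤ))
      (fun a b hab => by
        simp only
        exact_mod_cast Nat.mul_le_mul_left _
          (Nat.div_le_div_right (Nat.div_le_div_right (hγm hab))))
      (h l)
      (fun t => by
        rw [Int.cast_natCast]; exact lev_link1 c hρ l _)
      (fun t => by
        rw [Int.cast_natCast]; exact lev_link2 c hρ l _) n
    have hv' : ∑ t ∈ Finset.range n, vv μ (h (l + 1) t) (h l t) (S x t) ≤
        24 * 2 ^ l * (L : ℝ) * σ2 := by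
      refine le_trans (le_of_eq ?_) hv
      refine Finset.sum_congr rfl fun t _ => ?_
      rw [hh1, Int.cast_natCast]
      rfl
    have h3 : lam * ∑ t ∈ Finset.range n, (D (l + 1) t - D l t) ≤
        lam * (24 * L * σ2 / (κ * ρ) + κ * (ρ * 2 ^ K) * lg) := by
      have e2 : lam * (24 * L * σ2 / (κ * ρ) + κ * (ρ * 2 ^ K) * lg) =
          lam ^ 2 * (24 * 2 ^ l * (L : ℝ) * σ2) + 2 ^ (K - l) * lg := by
        have e : (2 : ℝ) ^ K = 2 ^ l * 2 ^ (K - l) := by rw [← pow_add]; congr 1; omega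
        rw [hlam, e]
        field_simp
      rw [e2]
      have := mul_le_mul_of_nonneg_left hv' (sq_nonneg lam)
      linarith
    exact le_of_mul_le_mul_left h3 hlam0
  -- sum of the links
  have hsum : ∑ t ∈ Finset.range n, D K t - ∑ t ∈ Finset.range n, D 0 t ≤
      ρ * L + K * (κ * (ρ * 2 ^ K) * lg) := by
    have e : ∑ t ∈ Finset.range n, D K t - ∑ t ∈ Finset.range n, D 0 t =
        ∑ l ∈ Finset.range K, ∑ t ∈ Finset.range n, (D (l + 1) t - D l t) := by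
      rw [Finset.sum_comm, ← Finset.sum_sub_distrib]
      refine Finset.sum_congr rfl fun t _ => ?_
      exact (Finset.sum_range_sub (fun l => D l t) K).symm
    rw [e]
    refine (Finset.sum_le_sum fun l hl => hone l (Finset.mem_range.1 hl)).trans ?_
    rw [Finset.sum_const, Finset.card_range, nsmul_eq_mul, mul_add]
    have h4 : (K : ℝ) * (24 * L * σ2 / (κ * ρ)) ≤ ρ * L := by
      rw [← mul_div_assoc, div_le_iff₀ (by positivity)]
      have := mul_le_mul_of_nonneg_right hκ (Nat.cast_nonneg (α := ℝ) L)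
      nlinarith
    linarith
  -- the base level
  have hbase : -∑ t ∈ Finset.range n, D K t ≤ M + 2 * n * σ2 / M := by
    have hK0 : ∀ t, h K t = c := by
      intro t
      simp only [h, lev]
      rw [Nat.div_eq_of_lt (hγB t)]
      simp
    have h5 : ∀ t ∈ Finset.range n, -(D K t) ≤ (S x t - S x (t + 1)) + 2 * σ2 / M := by
      intro t ht
      have ht' := Finset.mem_range.1 ht
      have a1 := abs_le.1 (hS t ht'.le)
      have a2 := abs_le.1 (hS (t + 1) ht')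
      simp only [D, hK0]
      have a3 := Phi_le h2 h0 hM (y := S x t - c) (by linarith [a1.1])
      rw [abs_of_nonneg (by linarith [a2.1])]
      linarith
    rw [← Finset.sum_neg_distrib]
    refine (Finset.sum_le_sum h5).trans ?_
    rw [Finset.sum_add_distrib, Finset.sum_range_sub' (fun t => S x t), Finset.sum_const,
      Finset.card_range, nsmul_eq_mul]
    have a1 := abs_le.1 (hS n le_rfl)
    have a2 : S x 0 = 0 := by simp [S]
    have e : (n : ℝ) * (2 * σ2 / M) = 2 * n * σ2 / M := by ring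
    linarith [a1.1]
  -- the finest level
  have hh0 : ∀ t, h 0 t = c + ρ * γ t := by
    intro t; simp [h, lev]
  have htan := tanaka (S x) (h 0) (fun a b hab => by
    rw [hh0, hh0]
    have : (γ a : ℝ) ≤ γ b := by exact_mod_cast hγm hab
    nlinarith) n
  have hW : ∀ t, c ≤ h 0 t ∧ h 0 t ≤ c + ρ * 2 ^ K := by
    intro t
    rw [hh0]
    have a1 : (γ t : ℝ) ≤ 2 ^ K := by exact_mod_cast (hγB t).le
    have a2 : (0 : ℝ) ≤ γ t := Nat.cast_nonneg _
    constructor <;> nlinarith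
  have htan2 : |S x n - h 0 n| + (h 0 n - h 0 0) ≤ 3 * M + 2 * (ρ * 2 ^ K) := by
    have a1 := abs_le.1 (hS n le_rfl)
    have a2 := hW n
    have a3 := hW 0
    have a4 : |S x n - h 0 n| ≤ 3 * M + ρ * 2 ^ K := by
      rw [abs_le]; constructor <;> linarith [a1.1, a1.2, a2.1, a2.2]
    linarith [a2.2, a3.1]
  have hlow : 2 * ρ * L ≤ ∑ t ∈ Finset.range n, (Phi μ (S x t - h 0 t) - |S x t - h 0 t|) := by
    calc 2 * ρ * L = ∑ _t ∈ I, 2 * ρ := by
          rw [Finset.sum_const, nsmul_eq_mul, hIc]; ring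
      _ ≤ ∑ t ∈ I, (Phi μ (S x t - h 0 t) - |S x t - h 0 t|) := by
          refine Finset.sum_le_sum fun t ht => ?_
          have a1 := Phi_ge h1 (S x t - h 0 t)
          have a2 : (γ t : ℝ) = (u t : ℝ) := by rw [← hγI t ht]; simp
          have a3 : (u t : ℝ) ≤ (S x t - c) / ρ := Int.floor_le _
          have a4 : (S x t - c) / ρ < u t + 1 := Int.lt_floor_add_one _
          rw [le_div_iff₀ hρ] at a3
          rw [div_lt_iff₀ hρ] at a4
          have a5 : |S x t - h 0 t| ≤ ρ := by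
            rw [hh0, a2, abs_le]; constructor <;> nlinarith
          linarith
      _ ≤ _ := by
          refine Finset.sum_le_sum_of_subset_of_nonneg hI fun t _ _ => ?_
          linarith [abs_le_Phi h1 h0 (S x t - h 0 t)]
  have e3 : ∑ t ∈ Finset.range n, (Phi μ (S x t - h 0 t) - |S x t - h 0 t|) =
      ∑ t ∈ Finset.range n, (|S x (t + 1) - h 0 t| - |S x t - h 0 t|) -
        ∑ t ∈ Finset.range n, D 0 t := by
    rw [← Finset.sum_sub_distrib]
    refine Finset.sum_congr rfl fun t _ => ?_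
    simp only [D]; ring
  have h6 : ρ * lis (S x) n ≤ ρ * L := by
    have : (lis (S x) n : ℝ) ≤ L := by exact_mod_cast hLL
    nlinarith
  linarith

lemma prob_bound {Ω : Type*} [MeasurableSpace Ω] {P : Measure Ω} [IsProbabilityMeasure P]
    {X : ℕ → Ω → ℝ} {μ : Measure ℝ} (hm : ∀ i, Measurable (X i)) (hind : iIndepFun X P)
    (hlaw : ∀ i, P.map (X i) = μ) (h2 : MemLp (fun x : ℝ => x) 2 μ)
    (h0 : ∫ x, x ∂μ = 0) (ρ : ℝ) (hρ : 0 < ρ) (hρm : 4 * ρ ≤ ∫ x, |x| ∂μ)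
    (n K : ℕ) (M κ : ℝ) (hM : 0 < M) (hK : 3 * M < ρ * 2 ^ K) (hκ2 : 2 ≤ κ)
    (hκ : 24 * (∫ x, x ^ 2 ∂μ) * K ≤ κ * ρ ^ 2) :
    P {ω | ¬ ρ * lis (S fun i => X i ω) n ≤ 4 * M + 2 * (ρ * 2 ^ K) +
      2 * n * (∫ x, x ^ 2 ∂μ) / M + K * (κ * (ρ * 2 ^ K) * (2 * Real.log (n + 1)))} ≤
      ENNReal.ofReal (n * (∫ x, x ^ 2 ∂μ) / M ^ 2) +
        ENNReal.ofReal (K / ((n : ℝ) + 1) ^ 2) := by
  have hμ : IsProbabilityMeasure μ := by
    rw [← hlaw 0]; exact Measure.isProbabilityMeasure_map (hm 0).aemeasurable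
  have h1 : Integrable (fun x : ℝ => x) μ := h2.integrable (by norm_num)
  set lg : ℝ := 2 * Real.log (n + 1) with hlg
  have hsub : {ω | ¬ ρ * lis (S fun i => X i ω) n ≤ 4 * M + 2 * (ρ * 2 ^ K) +
      2 * n * (∫ x, x ^ 2 ∂μ) / M + K * (κ * (ρ * 2 ^ K) * lg)} ⊆
      {ω | ¬ ∀ t ≤ n, |S (fun i => X i ω) t| ≤ M} ∪
        ⋃ l ∈ Finset.range K, ⋃ τ : Fin (2 ^ (K - l)) → Fin (n + 1),
          {ω | ¬ Link μ (-(2 * M)) ρ κ lg n K l τ fun i => X i ω} := by
    intro ω hω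
    by_contra hcon
    simp only [Set.mem_union, Set.mem_iUnion, Set.mem_ofPred_eq, not_or, not_not, not_exists,
      Finset.mem_range] at hcon
    exact hω (det_bound h2 h0 ρ hρ hρm _ n K M κ lg hM hK (by linarith) hκ hcon.1 hcon.2)
  refine (measure_mono hsub).trans ((measure_union_le _ _).trans ?_)
  refine add_le_add (kolmogorov hm hind hlaw h2 h0 M hM n) ?_
  refine (measure_biUnion_finset_le _ _).trans ?_
  have hn1 : (0 : ℝ) < (n : ℝ) + 1 := by positivity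
  have hl : ∀ l ∈ Finset.range K, P (⋃ τ : Fin (2 ^ (K - l)) → Fin (n + 1),
      {ω | ¬ Link μ (-(2 * M)) ρ κ lg n K l τ fun i => X i ω}) ≤
      ENNReal.ofReal (1 / ((n : ℝ) + 1) ^ 2) := by
    intro l hl
    have hl' := Finset.mem_range.1 hl
    refine (measure_iUnion_fintype_le _ _).trans ?_
    have hτ : ∀ τ : Fin (2 ^ (K - l)) → Fin (n + 1),
        P {ω | ¬ Link μ (-(2 * M)) ρ κ lg n K l τ fun i => X i ω} ≤
          ENNReal.ofReal (Real.exp (-(2 ^ (K - l) * lg))) := by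
      intro τ
      refine expo_bound hm hind hlaw h1 _ _ (δ := ρ * 2 ^ l)
        (fun t => lev_link1 _ hρ l _) (fun t => lev_link2 _ hρ l _) (by positivity) ?_ n _
      have : 2 * (1 / (κ * (ρ * 2 ^ l))) * (ρ * 2 ^ l) = 2 / κ := by field_simp
      rw [this, div_le_one (by linarith)]
      exact hκ2
    refine (Finset.sum_le_sum fun τ _ => hτ τ).trans ?_
    rw [Finset.sum_const, Finset.card_univ, Fintype.card_fun, Fintype.card_fin, Fintype.card_fin,
      nsmul_eq_mul, ← ENNReal.ofReal_natCast, ← ENNReal.ofReal_mul (Nat.cast_nonneg _)]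
    refine ENNReal.ofReal_le_ofReal ?_
    set B : ℕ := 2 ^ (K - l) with hB
    have hB2 : 2 ≤ B := by
      rw [hB]
      calc 2 = 2 ^ 1 := rfl
        _ ≤ 2 ^ (K - l) := Nat.pow_le_pow_right (by norm_num) (by omega)
    have e1 : Real.exp (-(2 ^ (K - l) * lg)) = (((n : ℝ) + 1) ^ (2 * B))⁻¹ := by
      rw [Real.exp_neg, hlg]
      congr 1
      rw [← Real.exp_log (pow_pos hn1 (2 * B)), Real.log_pow, hB]
      congr 1
      push_cast
      ring
    rw [e1]
    push_cast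
    rw [two_mul, pow_add, mul_inv, ← mul_assoc, mul_inv_cancel₀ (by positivity), one_mul, one_div]
    exact inv_anti₀ (by positivity) (pow_le_pow_right₀ (by linarith [Nat.cast_nonneg (α := ℝ) n]) hB2)
  refine (Finset.sum_le_sum hl).trans (le_of_eq ?_)
  rw [Finset.sum_const, Finset.card_range, nsmul_eq_mul, ← ENNReal.ofReal_natCast,
    ← ENNReal.ofReal_mul (Nat.cast_nonneg _)]
  congr 1
  ring

end Pool.Agent.H222Z.LIS
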