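import Mathlib
import Pool.Agent.H222Z.LIS.Chain

set_option autoImplicit false

namespace Pool.Agent.H222Z.LIS

open MeasureTheory ProbabilityTheory Finset Filter Topology
open scoped ENNReal

lemma tight {Ω : Type*} [MeasurableSpace Ω] {P : Measure Ω} [IsProbabilityMeasure P]
    {X : ℕ → Ω → ℝ} {μ : Measure ℝ} (hm : ∀ i, Measurable (X i)) (hind : iIndepFun X P)
    (hlaw : ∀ i, P.map (X i) = μ) (h2 : MemLp (fun x : ℝ => x) 2 μ)
    (h0 : ∫ x, x ∂μ = 0) (hpos : 0 < ∫ x, |x| ∂μ) (ε : ℝ) (hε : 0 < ε) :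
    ∃ C : ℝ, ∀ᶠ n : ℕ in atTop,
      P {ω | ¬ (lis (S fun i => X i ω) n : ℝ) ≤ C * (√n * Real.log n ^ 3)} ≤
        ENNReal.ofReal ε := by
  set σ2 := ∫ x, x ^ 2 ∂μ with hσ2
  have hσ0 : 0 ≤ σ2 := integral_nonneg fun x => sq_nonneg x
  set ρ : ℝ := (∫ x, |x| ∂μ) / 4 with hρdef
  have hρ : 0 < ρ := by positivity
  set A : ℝ := 1 + 2 * σ2 / ε with hA
  have hA1 : 1 ≤ A := by
    have : 0 ≤ 2 * σ2 / ε := by positivity
    linarith
  have hA0 : 0 < A := by linarith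
  have hAε : σ2 / A ^ 2 ≤ ε / 2 := by
    rw [div_le_iff₀ (by positivity)]
    have h1 : 2 * σ2 ≤ A * ε := by
      rw [hA, add_mul, div_mul_cancel₀ _ hε.ne']; linarith
    nlinarith
  set κ0 : ℝ := 2 + 48 * σ2 / ρ ^ 2 with hκ0
  have hκ00 : 0 ≤ κ0 := by positivity
  refine ⟨(16 * A + 2 * σ2 / A + 48 * A * κ0) / ρ, ?_⟩
  have hsq : Tendsto (fun n : ℕ => √(n : ℝ)) atTop atTop :=
    Real.tendsto_sqrt_atTop.comp tendsto_natCast_atTop_atTop
  have hlog : Tendsto (fun n : ℕ => Real.log (n : ℝ)) atTop atTop :=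
    Real.tendsto_log_atTop.comp tendsto_natCast_atTop_atTop
  have hcast : Tendsto (fun n : ℕ => (n : ℝ)) atTop atTop := tendsto_natCast_atTop_atTop
  filter_upwards [hsq.eventually_ge_atTop (ρ / A), hsq.eventually_ge_atTop (6 * A / ρ),
    hlog.eventually_ge_atTop 1, hcast.eventually_ge_atTop 2, hcast.eventually_ge_atTop (2 / ε)]
    with n hn1 hn2 hn3 hn4 hn5
  have hn0 : (0 : ℝ) < n := by linarith
  set r : ℝ := √(n : ℝ) with hr
  have hr0 : 0 < r := Real.sqrt_pos.2 hn0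
  have hrr : r * r = n := Real.mul_self_sqrt hn0.le
  set lg : ℝ := Real.log (n : ℝ) with hlg
  set M : ℝ := A * r with hM
  have hM0 : 0 < M := by positivity
  set N0 : ℕ := ⌊3 * M / ρ⌋₊ with hN0
  set K : ℕ := Nat.log 2 N0 + 1 with hK
  have hρM : ρ ≤ M := by
    rw [div_le_iff₀ hA0] at hn1; rw [hM]; linarith
  have hN1 : N0 ≠ 0 := by
    have : 1 ≤ N0 := by
      rw [hN0]
      refine Nat.le_floor ?_
      rw [le_div_iff₀ hρ]; push_cast; linarith
    omega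
  have hK1 : 3 * M < ρ * 2 ^ K := by
    have a1 : N0 < 2 ^ K := Nat.lt_pow_succ_log_self (by norm_num) N0
    have a2 : ((N0 : ℝ) + 1) ≤ 2 ^ K := by exact_mod_cast a1
    have a3 : 3 * M / ρ < N0 + 1 := Nat.lt_floor_add_one _
    rw [div_lt_iff₀ hρ] at a3
    nlinarith
  have hK2 : ρ * 2 ^ K ≤ 6 * M := by
    have a1 : 2 ^ Nat.log 2 N0 ≤ N0 := Nat.pow_log_le_self 2 hN1
    have a2 : (2 : ℝ) ^ Nat.log 2 N0 ≤ N0 := by exact_mod_cast a1
    have a3 : (N0 : ℝ) ≤ 3 * M / ρ := Nat.floor_le (by positivity)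
    rw [le_div_iff₀ hρ] at a3
    rw [hK, pow_succ]
    nlinarith
  have hK3 : (2 : ℝ) ^ K ≤ n := by
    rw [div_le_iff₀ hρ] at hn2
    have : ρ * 2 ^ K ≤ ρ * n := by
      calc ρ * 2 ^ K ≤ 6 * M := hK2
        _ = 6 * A * r := by rw [hM]; ring
        _ ≤ r * ρ * r := by gcongr
        _ = ρ * n := by rw [← hrr]; ring
    exact le_of_mul_le_mul_left this hρ
  have hK4 : (K : ℝ) ≤ 2 * lg := by
    have a1 : Real.log ((2 : ℝ) ^ K) ≤ lg := Real.log_le_log (by positivity) hK3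
    rw [Real.log_pow] at a1
    have a2 := Real.log_two_gt_d9
    have a3 : (0 : ℝ) ≤ K := Nat.cast_nonneg _
    nlinarith
  have hK5 : (K : ℝ) ≤ n := by
    have a1 : K < 2 ^ K := Nat.lt_two_pow_self
    have a2 : (K : ℝ) ≤ 2 ^ K := by exact_mod_cast a1.le
    linarith
  have hK0 : (0 : ℝ) ≤ K := Nat.cast_nonneg _
  set κ : ℝ := 2 + 24 * σ2 * K / ρ ^ 2 with hκ
  have hκa : 0 ≤ 24 * σ2 * K / ρ ^ 2 := by positivity
  have hκ2 : 2 ≤ κ := by linarith
  have hκ3 : 24 * σ2 * K ≤ κ * ρ ^ 2 := by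
    rw [hκ, add_mul, div_mul_cancel₀ _ (by positivity)]
    nlinarith [sq_nonneg ρ]
  have hκ4 : κ ≤ κ0 * lg := by
    rw [hκ, hκ0, add_mul]
    have a1 : 24 * σ2 * K / ρ ^ 2 ≤ 48 * σ2 / ρ ^ 2 * lg := by
      rw [div_mul_eq_mul_div]
      refine div_le_div_of_nonneg_right ?_ (by positivity)
      have := mul_le_mul_of_nonneg_left hK4 hσ0
      linarith
    linarith
  have hlg2 : Real.log (n + 1) ≤ 2 * lg := by
    have a1 : Real.log (n + 1) ≤ Real.log ((n : ℝ) ^ 2) :=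
      Real.log_le_log (by positivity) (by nlinarith)
    rw [Real.log_pow] at a1
    exact_mod_cast a1
  have hlg0 : 0 ≤ Real.log (n + 1) := Real.log_nonneg (by linarith)
  have key := prob_bound hm hind hlaw h2 h0 ρ hρ (by rw [hρdef]; linarith) n K M κ hM0 hK1 hκ2 hκ3
  have hbound : 4 * M + 2 * (ρ * 2 ^ K) + 2 * n * σ2 / M +
      K * (κ * (ρ * 2 ^ K) * (2 * Real.log (n + 1))) ≤
      (16 * A + 2 * σ2 / A + 48 * A * κ0) * (r * lg ^ 3) := by
    have l3 : 1 ≤ lg ^ 3 := one_le_pow₀ hn3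
    have b1 : 4 * M + 2 * (ρ * 2 ^ K) ≤ 16 * A * (r * lg ^ 3) := by
      have : M ≤ M * lg ^ 3 := le_mul_of_one_le_right hM0.le l3
      calc _ ≤ 16 * M := by linarith
        _ ≤ 16 * (M * lg ^ 3) := by linarith
        _ = _ := by rw [hM]; ring
    have b2 : 2 * n * σ2 / M ≤ 2 * σ2 / A * (r * lg ^ 3) := by
      have e : 2 * n * σ2 / M = 2 * σ2 / A * r := by
        rw [hM, ← hrr]; field_simp
      rw [e]
      have : r ≤ r * lg ^ 3 := le_mul_of_one_le_right hr0.le l3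
      gcongr
    have b3 : K * (κ * (ρ * 2 ^ K) * (2 * Real.log (n + 1))) ≤ 48 * A * κ0 * (r * lg ^ 3) := by
      calc _ ≤ (2 * lg) * ((κ0 * lg) * (6 * M) * (2 * (2 * lg))) := by gcongr
        _ = _ := by rw [hM]; ring
    linarith
  have hsub : {ω | ¬ (lis (S fun i => X i ω) n : ℝ) ≤
      (16 * A + 2 * σ2 / A + 48 * A * κ0) / ρ * (r * lg ^ 3)} ⊆
      {ω | ¬ ρ * lis (S fun i => X i ω) n ≤ 4 * M + 2 * (ρ * 2 ^ K) +
      2 * n * σ2 / M + K * (κ * (ρ * 2 ^ K) * (2 * Real.log (n + 1)))} := by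
    intro ω hω hcon
    apply hω
    rw [div_mul_eq_mul_div, le_div_iff₀ hρ]
    linarith
  refine (measure_mono hsub).trans (key.trans ?_)
  rw [← ENNReal.ofReal_add (by positivity) (by positivity)]
  refine ENNReal.ofReal_le_ofReal ?_
  have c1 : n * σ2 / M ^ 2 = σ2 / A ^ 2 := by
    rw [hM, ← hrr]; field_simp
  have c2 : K / ((n : ℝ) + 1) ^ 2 ≤ ε / 2 := by
    rw [div_le_iff₀ (by positivity)]
    rw [div_le_iff₀ hε] at hn5
    nlinarith
  linarith

theorem main {Ω : Type*} [MeasurableSpace Ω] (P : Measure Ω) [IsProbabilityMeasure P]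
    (X : ℕ → Ω → ℝ) (hm : ∀ i, Measurable (X i)) (hind : iIndepFun X P)
    (hid : ∀ i, IdentDistrib (X i) (X 0) P P) (hL2 : MemLp (X 0) 2 P)
    (hmean : ∫ ω, X 0 ω ∂P = 0) (hvar : 0 < Var[X 0; P]) (a : ℝ) (ha : 3 < a) :
    Tendsto (fun n : ℕ => P {ω | (lis (fun k => ∑ i ∈ Finset.range k, X i ω) n : ℝ) ≤
      √n * Real.log n ^ a}) atTop (𝓝 1) := by
  set μ : Measure ℝ := P.map (X 0) with hμ
  have hlaw : ∀ i, P.map (X i) = μ := fun i => (hid i).map_eq
  have h2 : MemLp (fun x : ℝ => x) 2 μ :=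
    (memLp_map_measure_iff (g := fun x : ℝ => x) measurable_id.aestronglyMeasurable
      (hm 0).aemeasurable).2 hL2
  have h0 : ∫ x, x ∂μ = 0 := by
    rw [hμ, integral_map (hm 0).aemeasurable measurable_id'.aestronglyMeasurable]
    exact hmean
  have hpos : 0 < ∫ x, |x| ∂μ := by
    rw [hμ, integral_map (hm 0).aemeasurable (by fun_prop)]
    have hi : Integrable (fun ω => |X 0 ω|) P := (hL2.integrable (by norm_num)).abs
    refine lt_of_le_of_ne (integral_nonneg fun ω => abs_nonneg _) fun h => ?_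
    have h3 := (integral_eq_zero_iff_of_nonneg (fun ω => abs_nonneg (X 0 ω)) hi).1 h.symm
    have h4 : X 0 =ᵐ[P] fun _ => (0 : ℝ) := by
      filter_upwards [h3] with ω hω
      simpa using hω
    rw [variance_congr h4] at hvar
    exact absurd hvar (by rw [show (fun _ : Ω => (0 : ℝ)) = 0 from rfl, variance_zero]; simp)
  have hbad : Tendsto (fun n : ℕ => P {ω | ¬ (lis (S fun i => X i ω) n : ℝ) ≤
      √n * Real.log n ^ a}) atTop (𝓝 0) := by
    rw [ENNReal.tendsto_nhds_zero]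
    intro ε hε
    obtain ⟨δ, hδ0, hδ⟩ : ∃ δ : ℝ, 0 < δ ∧ ENNReal.ofReal δ ≤ ε := by
      rcases eq_or_ne ε ⊤ with rfl | hne
      · exact ⟨1, one_pos, le_top⟩
      · exact ⟨ε.toReal, ENNReal.toReal_pos hε.ne' hne, (ENNReal.ofReal_toReal hne).le⟩
    obtain ⟨C, hC⟩ := tight hm hind hlaw h2 h0 hpos δ hδ0
    have hlog : Tendsto (fun n : ℕ => Real.log (n : ℝ)) atTop atTop :=
      Real.tendsto_log_atTop.comp tendsto_natCast_atTop_atTop
    have hpow : Tendsto (fun n : ℕ => Real.log (n : ℝ) ^ (a - 3)) atTop atTop :=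
      (tendsto_rpow_atTop (by linarith)).comp hlog
    filter_upwards [hC, hpow.eventually_ge_atTop C, hlog.eventually_gt_atTop 0] with n h1 h3 h4
    refine le_trans (measure_mono ?_) (h1.trans hδ)
    intro ω hω hcon
    apply hω
    refine hcon.trans ?_
    have e : Real.log (n : ℝ) ^ a = Real.log (n : ℝ) ^ (a - 3) * Real.log (n : ℝ) ^ 3 := by
      rw [← Real.rpow_natCast, ← Real.rpow_add h4]
      congr 1
      push_cast
      ring
    rw [e]
    calc C * (√n * Real.log n ^ 3) ≤ Real.log (n : ℝ) ^ (a - 3) * (√n * Real.log n ^ 3) := by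
          gcongr
      _ = _ := by ring
  have hlow : Tendsto (fun n : ℕ => 1 - P {ω | ¬ (lis (S fun i => X i ω) n : ℝ) ≤
      √n * Real.log n ^ a}) atTop (𝓝 1) := by
    have := ENNReal.Tendsto.sub (tendsto_const_nhds (x := (1 : ℝ≥0∞))) hbad (Or.inl ENNReal.one_ne_top)
    simpa using this
  refine tendsto_of_tendsto_of_tendsto_of_le_of_le hlow tendsto_const_nhds (fun n => ?_)
    fun n => prob_le_one
  rw [tsub_le_iff_right]
  refine le_trans (le_of_eq measure_univ.symm) (le_trans (measure_mono ?_) (measure_union_le _ _))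
  intro ω _
  exact em _

end Pool.Agent.H222Z.LIS
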